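import Mathlib

/-!
# Integral relations modulo a prime number and the action of a group of prime power order
-/

set_option autoImplicit false
set_option linter.unusedSectionVars false

namespace Run7.h370.MR

open MulAction

variable {X : Type*} [Fintype X] {G : Type*} [Group G] [MulAction G X]

/-- The odd functions modulo `r` with all relations. -/
def W (G : Type*) [Group G] [MulAction G X] (inv : X → X) (r : ℕ) (u : X → ℤ) :
    AddSubgroup (X → ZMod r) where
  carrier := {b | (∀ x, b (inv x) = - b x) ∧ ∀ (g : G) (S : Finset X),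
    (∀ x, x ∈ S ↔ inv x ∉ S) → ∑ x ∈ S, b x * (u (g • x) : ZMod r) = 0}
  zero_mem' := ⟨fun x => by simp, fun g S _ => by simp⟩
  add_mem' := by
    rintro a b ⟨h1, h2⟩ ⟨h3, h4⟩
    refine ⟨fun x => by simp only [Pi.add_apply, h1, h3]; ring, fun g S hS => ?_⟩
    simp only [Pi.add_apply, add_mul, Finset.sum_add_distrib]
    rw [h2 g S hS, h4 g S hS, add_zero]
  neg_mem' := by
    rintro a ⟨h1, h2⟩
    refine ⟨fun x => by simp only [Pi.neg_apply, h1], fun g S hS => ?_⟩
    simp only [Pi.neg_apply, neg_mul, Finset.sum_neg_distrib]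
    rw [h2 g S hS, neg_zero]

theorem mem_W {inv : X → X} {r : ℕ} {u : X → ℤ} {b : X → ZMod r} :
    b ∈ W G inv r u ↔ (∀ x, b (inv x) = - b x) ∧ ∀ (g : G) (S : Finset X),
      (∀ x, x ∈ S ↔ inv x ∉ S) → ∑ x ∈ S, b x * (u (g • x) : ZMod r) = 0 := Iff.rfl

theorem W_smul {inv : X → X} (hG : ∀ (g : G) x, g • inv x = inv (g • x)) {r : ℕ} {u : X → ℤ}
    {b : X → ZMod r} (hb : b ∈ W G inv r u) (h : G) : (fun x => b (h • x)) ∈ W G inv r u := by
  classical
  obtain ⟨h1, h2⟩ := hb
  refine ⟨fun x => ?_, fun g S hS => ?_⟩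
  · change b (h • inv x) = - b (h • x)
    rw [hG, h1]
  · have h3 := h2 (g * h⁻¹) (S.map (MulAction.toPerm h).toEmbedding) (fun x => by
      have e1 : ∀ y : X, y ∈ S.map (MulAction.toPerm h).toEmbedding ↔ h⁻¹ • y ∈ S := by
        intro y
        rw [Finset.mem_map_equiv]
        rfl
      rw [e1, e1, hS, hG])
    rw [Finset.sum_map] at h3
    rw [← h3]
    refine Finset.sum_congr rfl fun x _ => ?_
    change b (h • x) * _ = b (h • x) * ((u ((g * h⁻¹) • h • x) : ℤ) : ZMod r)
    rw [mul_smul, inv_smul_smul]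

/-- An integral odd relation gives a relation modulo `r` that is invariant under a group which acts
through a group of `r`-power order. -/
theorem core_mod (inv : X → X) (hne : ∀ x, inv (inv x) = x)
    (hG : ∀ (g : G) x, g • inv x = inv (g • x)) (r : ℕ) [hr : Fact r.Prime]
    (P : Subgroup G) (hP : ∀ h ∈ P, ∃ n : ℕ, ∀ x : X, (h ^ (r ^ n)) • x = x)
    (u c : X → ℤ) (hu : ∀ x, u (inv x) = -u x) (hc : ∀ x, c (inv x) = -c x)
    (hrel : ∀ g : G, ∑ x, c x * u (g • x) = 0) (hc0 : ∃ x, c x ≠ 0) :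
    ∃ b : X → ZMod r, (∃ x, b x ≠ 0) ∧ (∀ x, b (inv x) = - b x) ∧
      (∀ h ∈ P, ∀ x, b (h • x) = b x) ∧ ∀ (g : G) (S : Finset X),
        (∀ x, x ∈ S ↔ inv x ∉ S) → ∑ x ∈ S, b x * (u (g • x) : ZMod r) = 0 := by
  classical
  obtain ⟨x₀, hx₀⟩ := hc0
  obtain ⟨e, he, he1⟩ := Finset.extract_gcd (s := (Finset.univ : Finset X)) c ⟨x₀, Finset.mem_univ _⟩
  obtain ⟨D, hD⟩ : ∃ D, D = Finset.univ.gcd c := ⟨_, rfl⟩
  rw [← hD] at he
  have hce : ∀ x, c x = D * e x := fun x => he x (Finset.mem_univ x)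
  have hD0 : D ≠ 0 := by
    rintro rfl
    apply hx₀
    rw [hce, zero_mul]
  have heodd : ∀ x, e (inv x) = - e x := by
    intro x
    have h1 := hc x
    rw [hce, hce, ← mul_neg] at h1
    exact mul_left_cancel₀ hD0 h1
  have hErel : ∀ g : G, ∑ x, e x * u (g • x) = 0 := by
    intro g
    have h1 := hrel g
    have h2 : ∑ x, c x * u (g • x) = D * ∑ x, e x * u (g • x) := by
      rw [Finset.mul_sum]
      exact Finset.sum_congr rfl fun x _ => by rw [hce, mul_assoc]
    rw [h2] at h1
    exact (mul_eq_zero.1 h1).resolve_left hD0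
  have hEnd : ∃ x, ¬ (r : ℤ) ∣ e x := by
    by_contra hcon
    push Not at hcon
    have h1 : (r : ℤ) ∣ Finset.univ.gcd e := Finset.dvd_gcd fun x _ => hcon x
    rw [he1] at h1
    have h2 := Int.natAbs_dvd_natAbs.2 h1
    simp only [Int.natAbs_natCast, Int.natAbs_one, Nat.dvd_one] at h2
    exact hr.out.one_lt.ne' h2
  -- the reduction of `e`
  have hw0 : (fun x => (e x : ZMod r)) ∈ W G inv r u := by
    refine ⟨fun x => by
      change ((e (inv x) : ℤ) : ZMod r) = - ((e x : ℤ) : ZMod r)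
      rw [heodd]
      push_cast
      rfl, fun g S hS => ?_⟩
    have h1 : ∑ x ∈ S, e x * u (g • x) = 0 := by
      have h2 := hErel g
      have h3 : ∑ x ∈ Sᶜ, e x * u (g • x) = ∑ x ∈ S, e x * u (g • x) := by
        refine Finset.sum_nbij' inv inv (fun x hx => ?_) (fun x hx => ?_)
          (fun x _ => hne x) (fun x _ => hne x) (fun x _ => ?_)
        · rw [Finset.mem_compl] at hx
          rw [hS, hne]
          exact hx
        · rw [Finset.mem_compl]
          exact (hS x).1 hx
        · rw [heodd, hG, hu]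
          ring
      rw [← Finset.sum_add_sum_compl S, h3] at h2
      linarith
    have h2 := congrArg (Int.cast : ℤ → ZMod r) h1
    push_cast at h2
    exact h2
  let w0 : W G inv r u := ⟨_, hw0⟩
  have hw0ne : w0 ≠ 0 := by
    intro h
    obtain ⟨x, hx⟩ := hEnd
    apply hx
    have h1 := congrFun (congrArg Subtype.val h) x
    exact (ZMod.intCast_zmod_eq_zero_iff_dvd (e x) r).1 h1
  have hcard : r ∣ Nat.card (W G inv r u) := by
    have h1 : addOrderOf w0 = r := by
      refine addOrderOf_eq_prime ?_ hw0ne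
      apply Subtype.ext
      funext x
      change (r • (fun x => (e x : ZMod r)) : X → ZMod r) x = 0
      rw [Pi.smul_apply, nsmul_eq_mul, ZMod.natCast_self, zero_mul]
    have h2 := addOrderOf_dvd_natCard w0
    rwa [h1] at h2
  -- the group of `r`-power order
  let Q : Subgroup (Equiv.Perm X) := P.map (MulAction.toPermHom G X)
  have hQ : IsPGroup r Q := by
    rintro ⟨q, hq⟩
    obtain ⟨h, hh, rfl⟩ := Subgroup.mem_map.1 hq
    obtain ⟨n, hn⟩ := hP h hh
    refine ⟨n, ?_⟩
    apply Subtype.ext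
    change (MulAction.toPermHom G X h) ^ (r ^ n) = 1
    rw [← map_pow]
    ext x
    exact hn x
  have hQW : ∀ q : Q, ∀ b : X → ZMod r, b ∈ W G inv r u →
      (fun x => b ((q : Equiv.Perm X)⁻¹ x)) ∈ W G inv r u := by
    rintro ⟨q, hq⟩ b hb
    obtain ⟨h, hh, rfl⟩ := Subgroup.mem_map.1 hq
    have h1 := W_smul hG hb h⁻¹
    have h2 : (fun x => b (((⟨MulAction.toPermHom G X h, hq⟩ : Q) : Equiv.Perm X)⁻¹ x)) =
        fun x => b (h⁻¹ • x) := by
      funext x
      congr 1
    rw [h2]
    exact h1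
  let act : MulAction Q (W G inv r u) :=
    { smul := fun q b => ⟨fun x => b.1 ((q : Equiv.Perm X)⁻¹ x), hQW q b.1 b.2⟩
      one_smul := fun b => by
        apply Subtype.ext
        funext x
        rfl
      mul_smul := fun q q' b => by
        apply Subtype.ext
        funext x
        change b.1 (((q * q' : Q) : Equiv.Perm X)⁻¹ x) = b.1 ((q' : Equiv.Perm X)⁻¹ ((q : Equiv.Perm X)⁻¹ x))
        rw [Subgroup.coe_mul, mul_inv_rev, Equiv.Perm.mul_apply] }
  have h0 : (0 : W G inv r u) ∈ fixedPoints Q (W G inv r u) := by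
    intro q
    apply Subtype.ext
    funext x
    rfl
  obtain ⟨b, hb, hb0⟩ := hQ.exists_fixed_point_of_prime_dvd_card_of_fixed_point (W G inv r u)
    hcard h0
  refine ⟨b.1, ?_, b.2.1, fun h hh x => ?_, fun g S hS => b.2.2 g S hS⟩
  · by_contra hcon
    push Not at hcon
    apply hb0
    apply Subtype.ext
    funext x
    exact (hcon x).symm
  · have h1 := hb ⟨MulAction.toPermHom G X h, Subgroup.mem_map_of_mem _ hh⟩
    have h2 := congrFun (congrArg Subtype.val h1) (h • x)
    change b.1 ((MulAction.toPermHom G X h)⁻¹ (h • x)) = b.1 (h • x) at h2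
    have h3 : (MulAction.toPermHom G X h)⁻¹ (h • x) = x := by
      rw [← map_inv]
      exact inv_smul_smul h x
    rw [h3] at h2
    exact h2.symm

end Run7.h370.MR
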