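import Mathlib
import Pool.Agent.Run7.h142.TF.Defs

/-!
# Weil numbers with slopes which are nondegenerate modulo a prime number: definitions
-/

set_option autoImplicit false

namespace Run7.h370.MR

open NumberField Pool.Agent.Run7.h142.TF

/-- The embedding `τ` of the field `F` into `A`, followed by the automorphism `g` of `A`. -/
def move {F A : Type} [Field F] [Field A] (g : A ≃+* A) (τ : F →+* A) : F →+* A :=
  (g : A →+* A).comp τ

/-- The conjugate of an embedding of a CM field. -/
noncomputable def conj {F A : Type} [Field F] [NumberField F] [IsCMField F] [Field A] (τ : F →+* A) : F →+* A :=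
  τ.comp (IsCMField.complexConj F : F →+* F)

/-- The numbers `π i` of the CM field `E` have slopes which are nondegenerate modulo `r`: their
deviations `2 ord_p (τ (π i)) - a` are the multiples `κ * u i τ` of one number `κ ≠ 0`, with integers
`u i τ`; and there is a group `H` of automorphisms of the algebraic closure of `ℚ_p`, each of
which acts on the embeddings `τ` of `E` with an order that is a power of `r`, such that the
only system of functions `b i` with values modulo `r` with the following properties is `b = 0`:
`b i` is odd and invariant under `H`, and for all automorphisms `g` the sum of the numbers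
`b i τ * u i (g τ)`, over `i` and over representatives `τ` of the pairs of conjugate embeddings, is
zero modulo `r`. (The sum does not depend on the choice `S` of the representatives.) -/
def NondegenerateMod (r p a : ℕ) [Fact p.Prime] {E : Type} [Field E] [NumberField E] [IsCMField E]
    {I : Type} [Fintype I] (π : I → E) : Prop :=
  ∃ (κ : ℝ) (u : I → (E →+* PadicAlgCl p) → ℤ) (H : Subgroup (PadicAlgCl p ≃+* PadicAlgCl p)),
    κ ≠ 0 ∧ (∀ i τ, dev p a (π i) τ = κ * u i τ) ∧
    (∀ h ∈ H, ∃ n : ℕ, ∀ τ : E →+* PadicAlgCl p, move (h ^ r ^ n) τ = τ) ∧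
    ∀ b : I → (E →+* PadicAlgCl p) → ZMod r, (∀ i τ, b i (conj τ) = - b i τ) →
      (∀ h ∈ H, ∀ i τ, b i (move h τ) = b i τ) →
      (∀ (g : PadicAlgCl p ≃+* PadicAlgCl p) (S : Finset (E →+* PadicAlgCl p)),
        (∀ τ, τ ∈ S ↔ conj τ ∉ S) → ∑ i, ∑ τ ∈ S, b i τ * (u i (move g τ) : ZMod r) = 0) → b = 0

/-- Embeddings of different fields of the family are flipped: some automorphism of the complex
numbers fixes one of them and maps the other one to its complex conjugate. (This is no condition if
there is only one field.) -/
def FieldsFlipped {κ : Type} (E : κ → Type) [∀ k, Field (E k)] : Prop :=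
  ∀ k l, l ≠ k → ∀ (φ : E k →+* ℂ) (ψ : E l →+* ℂ), ∃ σ : ℂ ≃+* ℂ,
    (move σ φ = φ ∧ move σ ψ = ComplexEmbedding.conjugate ψ) ∨
    (move σ φ = ComplexEmbedding.conjugate φ ∧ move σ ψ = ψ)

/-- `π k i`, `i : I k`, are Weil numbers for `p ^ a` in the CM field `E k`, whose slopes are
nondegenerate modulo the prime number `r k`. -/
structure SlopesModPrime (p a : ℕ) [Fact p.Prime] {κ : Type} {E : κ → Type} [∀ k, Field (E k)]
    [∀ k, NumberField (E k)] [∀ k, IsCMField (E k)] {I : κ → Type} [∀ k, Fintype (I k)]
    (r : κ → ℕ) (π : ∀ k, I k → E k) : Prop where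
  weil : ∀ k i, π k i * IsCMField.complexConj (E k) (π k i) = (p : E k) ^ a
  prime : ∀ k, (r k).Prime
  nondegenerate : ∀ k, NondegenerateMod (r k) p a (π k)

end Run7.h370.MR
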