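import Mathlib
import Pool.Agent.Run7.h370.MR.Core
import Pool.Agent.Run7.h370.MR.Defs
import Pool.Agent.Run7.h142.TF.Angle
import Pool.Agent.H204R3.GP.Delta

/-!
# Weil numbers with slopes which are nondegenerate modulo a prime number have maximal angle rank
-/

set_option autoImplicit false
set_option linter.unusedSectionVars false

namespace Run7.h370.MR

open NumberField Module Polynomial Pool.Agent.H204R3.CM
  Pool.Agent.H977R3.CM Pool.Agent.W527 Pool.Agent.Y1.CT Pool.Agent.Y1.TS Pool.Agent.Y137.MV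
  Pool.Agent.Run7.h142.JT Pool.Agent.Run7.h142.TF

variable {p : ℕ} [Fact p.Prime] {a : ℕ}

/-- One field: a relation between the translates of the slopes is trivial. -/
theorem block {E : Type} [Field E] [NumberField E] [IsCMField E] {I : Type} [Fintype I]
    {π : I → E} {r : ℕ} (hr : r.Prime) (hπ : NondegenerateMod r p a π)
    (hw : ∀ i, π i * IsCMField.complexConj E (π i) = (p : E) ^ a)
    (ν : PadicAlgCl p ≃+* ℂ) {L : Type} [Field L] [NumberField L] [IsGalois ℚ L] (j : L →+* ℂ)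
    (hj : ∀ ψ : E →+* ℂ, ∃ φ : E →+* L, j.comp φ = ψ)
    (c : I → (E →+* L) → ℤ) (hc : ∀ i φ, c i (cbar φ) = - c i φ)
    (hrel : ∀ g : L ≃ₐ[ℚ] L, ∑ i, ∑ φ : E →+* L, (c i φ : ℝ) * ww ν a (π i) (j.comp (g • φ)) = 0) :
    ∀ i φ, c i φ = 0 := by
  classical
  have _ : Fact r.Prime := ⟨hr⟩
  obtain ⟨κ, u, H, hκ, hu, hH, hb⟩ := hπ
  by_contra hcon
  push Not at hcon
  obtain ⟨i₀, φ₀, h₀⟩ := hcon
  let e : L →+* PadicAlgCl p := (ν.symm : ℂ →+* PadicAlgCl p).comp j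
  have he : ∀ x, ν (e x) = j x := fun x => ν.apply_symm_apply _
  have hwe : ∀ i (φ : E →+* L), ww ν a (π i) (j.comp φ) = κ * u i (e.comp φ) := by
    intro i φ
    rw [← hu, dev_eq ν]
    congr 1
    ext x
    exact (he (φ x)).symm
  -- the integral relation
  let X := Σ _ : I, (E →+* L)
  let inv : X → X := fun y => ⟨y.1, cbar y.2⟩
  let U : X → ℤ := fun y => u y.1 (e.comp y.2)
  let C : X → ℤ := fun y => c y.1 y.2
  have hU : ∀ y, U (inv y) = - U y := by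
    rintro ⟨i, φ⟩
    have h1 : ww ν a (π i) (j.comp (cbar φ)) = - ww ν a (π i) (j.comp φ) := by
      rw [comp_cbar, ww_conj ν (hw i)]
    rw [hwe, hwe, ← mul_neg] at h1
    have h2 := mul_left_cancel₀ hκ h1
    change u i (e.comp (cbar φ)) = - u i (e.comp φ)
    exact_mod_cast h2
  have hC : ∀ y, C (inv y) = - C y := fun y => hc y.1 y.2
  have hR : ∀ g : L ≃ₐ[ℚ] L, ∑ y : X, C y * U (g • y) = 0 := by
    intro g
    have h1 := hrel g
    have h2 : ∑ i, ∑ φ : E →+* L, (c i φ : ℝ) * ww ν a (π i) (j.comp (g • φ)) =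
        κ * ((∑ y : X, C y * U (g • y) : ℤ) : ℝ) := by
      rw [Fintype.sum_sigma]
      push_cast
      rw [Finset.mul_sum]
      refine Finset.sum_congr rfl fun i _ => ?_
      rw [Finset.mul_sum]
      refine Finset.sum_congr rfl fun φ _ => ?_
      rw [hwe]
      change (c i φ : ℝ) * (κ * (u i (e.comp (g • φ)) : ℝ)) =
        κ * ((c i φ : ℝ) * (u i (e.comp (g • φ)) : ℝ))
      ring
    rw [h2] at h1
    have h3 := (mul_eq_zero.1 h1).resolve_left hκ
    exact_mod_cast h3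
  -- the group
  let P : Subgroup (L ≃ₐ[ℚ] L) :=
    { carrier := {g | ∃ h ∈ H, ∀ x, h (e x) = e (g x)}
      mul_mem' := by
        rintro g g' ⟨h, hh, h1⟩ ⟨h', hh', h2⟩
        refine ⟨h * h', H.mul_mem hh hh', fun x => ?_⟩
        change h (h' (e x)) = e (g (g' x))
        rw [h2, h1]
      one_mem' := ⟨1, H.one_mem, fun x => rfl⟩
      inv_mem' := by
        rintro g ⟨h, hh, h1⟩
        refine ⟨h⁻¹, H.inv_mem hh, fun x => ?_⟩
        have h2 := h1 (g⁻¹ x)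
        have h3 : g (g⁻¹ x) = x := g.apply_symm_apply x
        rw [h3] at h2
        rw [← h2]
        exact h.symm_apply_apply _ }
  have hpow : ∀ (g : L ≃ₐ[ℚ] L) (h : PadicAlgCl p ≃+* PadicAlgCl p), (∀ x, h (e x) = e (g x)) →
      ∀ (n : ℕ) x, (h ^ n) (e x) = e ((g ^ n) x) := by
    intro g h h1 n
    induction n with
    | zero => intro x; rfl
    | succ n ih =>
      intro x
      rw [pow_succ, pow_succ]
      change (h ^ n) (h (e x)) = e ((g ^ n) (g x))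
      rw [h1, ih]
  have hP : ∀ g ∈ P, ∃ n : ℕ, ∀ y : X, (g ^ (r ^ n)) • y = y := by
    rintro g ⟨h, hh, h1⟩
    obtain ⟨n, hn⟩ := hH h hh
    refine ⟨n, ?_⟩
    rintro ⟨i, φ⟩
    have h2 : (g ^ r ^ n) • φ = φ := by
      ext x
      apply e.injective
      change e ((g ^ r ^ n) (φ x)) = e (φ x)
      rw [← hpow g h h1]
      exact RingHom.congr_fun (hn (e.comp φ)) x
    exact congrArg (Sigma.mk (β := fun _ : I => (E →+* L)) i) h2
  obtain ⟨b, ⟨y₀, hy₀⟩, hb1, hb2, hb3⟩ := core_mod (G := L ≃ₐ[ℚ] L) inv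
    (by
      rintro ⟨i, φ⟩
      simp only [inv, cbar_cbar]) (fun g y => rfl) r P hP U C hU hC hR ⟨⟨i₀, φ₀⟩, h₀⟩
  -- the embeddings
  have hbij : Function.Bijective (fun φ : E →+* L => e.comp φ) := by
    constructor
    · intro φ ψ hh
      ext x
      exact e.injective (RingHom.congr_fun hh x)
    · intro τ
      obtain ⟨φ, hφ⟩ := hj ((ν : PadicAlgCl p →+* ℂ).comp τ)
      refine ⟨φ, ?_⟩
      ext x
      apply ν.injective
      change ν (e (φ x)) = ν (τ x)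
      rw [he]
      exact RingHom.congr_fun hφ x
  let eqv : (E →+* L) ≃ (E →+* PadicAlgCl p) := Equiv.ofBijective _ hbij
  have heqv : ∀ φ : E →+* L, eqv.symm (e.comp φ) = φ := fun φ => eqv.symm_apply_apply φ
  have hgal : ∀ h : PadicAlgCl p ≃+* PadicAlgCl p, ∃ g : L ≃ₐ[ℚ] L, ∀ x, h (e x) = e (g x) := by
    intro h
    obtain ⟨g, hg⟩ := Pool.Agent.H977R3.CM.exists_gal j (ν.symm.trans (h.trans ν))
    refine ⟨g, fun x => ?_⟩
    apply ν.injective
    rw [he]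
    exact hg x
  have h1 := hb (fun i τ => b ⟨i, eqv.symm τ⟩) ?_ ?_ ?_
  · apply hy₀
    have h2 := congrFun (congrFun h1 y₀.1) (e.comp y₀.2)
    simp only [heqv] at h2
    exact h2
  · intro i τ
    obtain ⟨φ, rfl⟩ := hbij.2 τ
    change b ⟨i, eqv.symm (e.comp (cbar φ))⟩ = - b ⟨i, eqv.symm (e.comp φ)⟩
    rw [heqv, heqv]
    exact hb1 ⟨i, φ⟩
  · intro h hh i τ
    obtain ⟨φ, rfl⟩ := hbij.2 τ
    obtain ⟨g, hg⟩ := hgal h
    have h2 : move h (e.comp φ) = e.comp (g • φ) := by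
      ext x
      exact hg (φ x)
    change b ⟨i, eqv.symm (move h (e.comp φ))⟩ = b ⟨i, eqv.symm (e.comp φ)⟩
    rw [h2, heqv, heqv]
    exact hb2 g ⟨h, hh, hg⟩ ⟨i, φ⟩
  · intro h S hS
    obtain ⟨g, hg⟩ := hgal h
    let S' : Finset X := Finset.univ.sigma fun _ => S.map eqv.symm.toEmbedding
    have hmem : ∀ i φ, (⟨i, φ⟩ : X) ∈ S' ↔ e.comp φ ∈ S := by
      intro i φ
      refine Finset.mem_sigma.trans ?_
      simp only [Finset.mem_univ, true_and]
      rw [Finset.mem_map_equiv, Equiv.symm_symm]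
      rfl
    have h2 := hb3 g S' (by
      rintro ⟨i, φ⟩
      change (⟨i, φ⟩ : X) ∈ S' ↔ (⟨i, cbar φ⟩ : X) ∉ S'
      rw [hmem, hmem, hS]
      rfl)
    rw [Finset.sum_sigma] at h2
    rw [← h2]
    refine Finset.sum_congr rfl fun i _ => ?_
    rw [Finset.sum_map]
    refine Finset.sum_congr rfl fun τ _ => ?_
    obtain ⟨φ, rfl⟩ := hbij.2 τ
    have h3 : move h (e.comp φ) = e.comp (g • φ) := by
      ext x
      exact hg (φ x)
    change b ⟨i, eqv.symm (e.comp φ)⟩ * ((u i (move h (e.comp φ)) : ℤ) : ZMod r) =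
      b ⟨i, eqv.symm (e.comp φ)⟩ * ((u i (e.comp (g • eqv.symm (e.comp φ))) : ℤ) : ZMod r)
    rw [heqv, h3]

variable {κ : Type} [Fintype κ] {E : κ → Type}
  [∀ k, Field (E k)] [∀ k, NumberField (E k)] [∀ k, IsCMField (E k)] {I : κ → Type}
  [∀ k, Fintype (I k)] {π : ∀ k, I k → E k} {r : κ → ℕ}

/-- The slopes satisfy no odd relations. -/
theorem slopes_trivial (hE : FieldsFlipped E) (hπ : SlopesModPrime p a r π)
    (ν : PadicAlgCl p ≃+* ℂ) (C : ∀ k, I k → (E k →+* ℂ) → ℤ)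
    (hC : ∀ k i φ, C k i (ComplexEmbedding.conjugate φ) = - C k i φ)
    (hrel : ∀ σ : ℂ ≃+* ℂ, ∑ k, ∑ i, ∑ φ : E k →+* ℂ, (C k i φ : ℝ) *
      ww ν a (π k i) ((σ : ℂ →+* ℂ).comp φ) = 0) : ∀ k i φ, C k i φ = 0 := by
  classical
  obtain ⟨L, _, _, j, hj⟩ := exists_galois E
  let c : ∀ k, I k → (E k →+* L) → ℤ := fun k i φ => C k i (j.comp φ)
  have hc : ∀ k i φ, c k i (cbar φ) = - c k i φ := by
    intro k i φ
    simp only [c]
    rw [comp_cbar, hC]
  -- the relation on `L`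
  let X := Σ x : (Σ k, I k), (E x.1 →+* L)
  have hX : ∀ g : L ≃ₐ[ℚ] L, ∑ y : X, (c y.1.1 y.1.2 y.2 : ℝ) *
      (fun z : X => ww ν a (π z.1.1 z.1.2) (j.comp z.2)) (g • y) = 0 := by
    intro g
    obtain ⟨σ, hσ⟩ := exists_lift' j g
    have h1 := hrel σ
    rw [← h1, Fintype.sum_sigma, Fintype.sum_sigma]
    refine Finset.sum_congr rfl fun k _ => Finset.sum_congr rfl fun i _ => ?_
    refine Fintype.sum_equiv (embEquiv j (hj k)) _ _ fun φ => ?_
    change _ = (C k i (j.comp φ) : ℝ) * ww ν a (π k i) ((σ : ℂ →+* ℂ).comp (j.comp φ))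
    rw [lifts_comp j hσ]
    rfl
  have hblock := Pool.Agent.H204R3.GP.core_block_real (X := X) (G := L ≃ₐ[ℚ] L)
    (fun y => ⟨y.1, cbar y.2⟩) (fun g x => rfl) (fun y => y.1.1)
    (fun z : X => ww ν a (π z.1.1 z.1.2) (j.comp z.2))
    (fun z => by
      change ww ν a (π z.1.1 z.1.2) (j.comp (cbar z.2)) = _
      rw [comp_cbar, ww_conj ν (hπ.weil z.1.1 z.1.2)])
    (by
      rintro ⟨⟨k, i⟩, φ⟩ ⟨⟨l, i'⟩, ψ⟩ hkl
      change l ≠ k at hkl
      obtain ⟨σ, hσ⟩ := hE k l hkl (j.comp φ) (j.comp ψ)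
      obtain ⟨g, hg⟩ := exists_lift j σ
      have e1 : move σ (j.comp φ) = j.comp (g • φ) := lifts_comp j hg φ
      have e2 : move σ (j.comp ψ) = j.comp (g • ψ) := lifts_comp j hg ψ
      refine ⟨g, ?_⟩
      rcases hσ with ⟨h1, h2⟩ | ⟨h1, h2⟩
      · left
        rw [e1] at h1
        rw [e2, ← comp_cbar] at h2
        exact ⟨congrArg (Sigma.mk (β := fun x : (Σ k, I k) => (E x.1 →+* L)) ⟨k, i⟩) (jcomp_inj j h1),
          congrArg (Sigma.mk (β := fun x : (Σ k, I k) => (E x.1 →+* L)) ⟨l, i'⟩) (jcomp_inj j h2)⟩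
      · right
        rw [e1, ← comp_cbar] at h1
        rw [e2] at h2
        exact ⟨congrArg (Sigma.mk (β := fun x : (Σ k, I k) => (E x.1 →+* L)) ⟨k, i⟩) (jcomp_inj j h1),
          congrArg (Sigma.mk (β := fun x : (Σ k, I k) => (E x.1 →+* L)) ⟨l, i'⟩) (jcomp_inj j h2)⟩)
    (fun y => (c y.1.1 y.1.2 y.2 : ℝ)) hX
  have hmain : ∀ k i φ, c k i φ = 0 := by
    intro k
    refine block (hπ.prime k) (hπ.nondegenerate k) (hπ.weil k) ν j (hj k) (c k) (hc k) fun g => ?_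
    have h1 := hblock k g
    rw [Finset.sum_filter, Fintype.sum_sigma, Fintype.sum_sigma, Finset.sum_eq_single k] at h1
    · rw [← h1]
      refine Finset.sum_congr rfl fun i _ => Finset.sum_congr rfl fun φ _ => ?_
      rw [if_pos rfl]
      rfl
    · intro l _ hl
      refine Finset.sum_eq_zero fun i _ => Finset.sum_eq_zero fun φ _ => ?_
      rw [if_neg hl]
    · intro h
      exact absurd (Finset.mem_univ _) h
  intro k i φ
  obtain ⟨φ, rfl⟩ := hj k φ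
  exact hmain k i φ

theorem angle_of_mod (hE : FieldsFlipped E) (hπ : SlopesModPrime p a r π) :
    MaximalAngleRank (F := Fam E I) (p ^ a) (fun x : Σ k, I k => π x.1 x.2) := by
  classical
  obtain ⟨ν⟩ := Pool.Agent.R401.Iso.exists_iso p
  intro r n hrel
  have hp0 : ∀ k, (p : E k) ≠ 0 := fun k => Nat.cast_ne_zero.2 (Fact.out : p.Prime).ne_zero
  have hπ0 : ∀ k i, π k i ≠ 0 := by
    intro k i h0
    have h1 := hπ.weil k i
    rw [h0, zero_mul] at h1
    exact pow_ne_zero a (hp0 k) h1.symm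
  let Y : Type := Σ x : (Σ k, I k), (Fam E I x →+* ℂ)
  let inv : Y → Y := fun y => ⟨y.1, ComplexEmbedding.conjugate y.2⟩
  have hinv : ∀ y : Y, inv (inv y) = y := by
    rintro ⟨x, φ⟩
    simp only [inv, conj_conj']
  let u : (ℂ ≃+* ℂ) → Y → ℝ := fun σ y => ww ν a (π y.1.1 y.1.2) ((σ : ℂ →+* ℂ).comp y.2)
  have hu : ∀ σ y, u σ (inv y) = - u σ y := by
    rintro σ ⟨x, φ⟩
    change ww ν a (π x.1 x.2) ((σ : ℂ →+* ℂ).comp (ComplexEmbedding.conjugate φ)) = _
    rw [conj_move, ww_conj ν (hπ.weil x.1 x.2)]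
  -- the relation
  have hlog : ∀ σ : ℂ ≃+* ℂ, ∑ y : Y, (n y : ℝ) * u σ y = 2 * (r * a) - a * ∑ y : Y, (n y : ℝ) := by
    intro σ
    have h1 := congrArg (fun x => lg ν (σ x)) hrel
    simp only [map_prod, map_zpow₀, lg_zpow] at h1
    rw [lg_prod _ _ _ (fun y _ => (_root_.map_ne_zero σ).2 ((_root_.map_ne_zero _).2
      (hπ0 _ _)))] at h1
    have h2 : lg ν (σ (((p ^ a : ℕ) : ℂ))) = -a := by
      rw [map_natCast]
      push_cast
      rw [lg_pow, lg_p]
      ring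
    rw [h2] at h1
    have h3 : ∑ y : Y, (n y : ℝ) * u σ y =
        ∑ y : Y, (-(2 * ((n y : ℝ) * lg ν (σ (y.2 (π y.1.1 y.1.2))))) - a * (n y : ℝ)) := by
      refine Finset.sum_congr rfl fun y _ => ?_
      have h4 : u σ y = -(2 * lg ν (σ (y.2 (π y.1.1 y.1.2)))) - a := by
        change 2 * (-(lg ν (σ (y.2 (π y.1.1 y.1.2))))) - (a : ℝ) = _
        ring
      rw [h4]
      ring
    rw [h3, Finset.sum_sub_distrib, Finset.sum_neg_distrib, ← Finset.mul_sum, ← Finset.mul_sum, h1]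
    ring
  have hc0 : 2 * ((r : ℝ) * a) - a * ∑ y : Y, (n y : ℝ) = 0 := by
    have h1 := hlog (RingEquiv.refl ℂ)
    have h2 := hlog (starRingAut : ℂ ≃+* ℂ)
    have h3 : ∀ y : Y, u (starRingAut : ℂ ≃+* ℂ) y = - u (RingEquiv.refl ℂ) y := by
      rintro ⟨x, φ⟩
      change ww ν a (π x.1 x.2) (ComplexEmbedding.conjugate φ) = - ww ν a (π x.1 x.2) φ
      rw [ww_conj ν (hπ.weil x.1 x.2)]
    rw [← h1] at h2
    simp only [h3, mul_neg, Finset.sum_neg_distrib] at h2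
    linarith
  have hF : ∀ σ : ℂ ≃+* ℂ, ∑ y : Y, ((n y - n (inv y) : ℤ) : ℝ) * u σ y = 0 := by
    intro σ
    have h2 : ∑ y : Y, (n (inv y) : ℝ) * u σ y = ∑ y : Y, -((n y : ℝ) * u σ y) := by
      refine Finset.sum_nbij' inv inv (fun _ _ => Finset.mem_univ _)
        (fun _ _ => Finset.mem_univ _) (fun y _ => hinv y) (fun y _ => hinv y) (fun y _ => ?_)
      rw [hu]
      ring
    push_cast
    simp only [sub_mul, Finset.sum_sub_distrib]
    rw [h2, Finset.sum_neg_distrib, hlog, hc0]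
    ring
  have hmain := slopes_trivial hE hπ ν
    (fun k i φ => n ⟨⟨k, i⟩, φ⟩ - n ⟨⟨k, i⟩, ComplexEmbedding.conjugate φ⟩)
    (fun k i φ => by
      simp only [conj_conj']
      ring)
    (fun σ => by
      rw [← hF σ, Fintype.sum_sigma, Fintype.sum_sigma])
  rintro ⟨k, i⟩ φ
  exact sub_eq_zero.1 (hmain k i φ)

end Run7.h370.MR
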