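import Mathlib
import Pool.Agent.Run7.h370.MR.Defs

/-!
# Weil numbers of 2-adic towers: definitions
-/

set_option autoImplicit false

namespace Run7.h370.MR

open NumberField Module Pool.Agent.Run7.h142.TF

/-- Half of the number of the embeddings `τ` of `E` over the embedding `σ` of the subfield `R` for
which the integer `u τ` is odd. -/
noncomputable def oddPairs {R E A : Type} [Field R] [Field E] [Algebra R E] [Field A]
    (u : (E →+* A) → ℤ) (σ : R →+* A) : ℕ :=
  {τ : E →+* A | τ.comp (algebraMap R E) = σ ∧ Odd (u τ)}.ncard / 2

/-- `π` is a Weil number for `p ^ a` in the CM field `E`, which is an extension of 2-power degree of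
a field `R` with Galois closure of odd degree. The deviations `2 ord_p (τ π) - a` are the multiples
`κ * u τ` of a number `κ ≠ 0`, with integers `u τ`, and the numbers `oddPairs u σ` of the pairs of
conjugate embeddings over the embeddings `σ` of `R` with odd `u τ` satisfy modulo `2` no
linear relation that is preserved by the automorphisms. (If `R` is the field of rational numbers this
says: for an odd number of pairs of conjugate embeddings `τ` the integer `u τ` is odd.) -/
structure TwoAdicSlopes (p a : ℕ) [Fact p.Prime] (R : Type) {E : Type} [Field R] [NumberField R]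
    [Field E] [NumberField E] [IsCMField E] [Algebra R E] (π : E) : Prop where
  weil : π * IsCMField.complexConj E π = (p : E) ^ a
  closure : Odd (finrank ℚ (IntermediateField.normalClosure ℚ R ℂ))
  degree : ∃ k : ℕ, finrank R E = 2 ^ k
  slopes : ∃ (κ : ℝ) (u : (E →+* PadicAlgCl p) → ℤ), κ ≠ 0 ∧
    (∀ τ, dev p a π τ = κ * u τ) ∧
    ∀ β : (R →+* PadicAlgCl p) → ZMod 2,
      (∀ g : PadicAlgCl p ≃+* PadicAlgCl p,
        ∑ σ, β σ * (oddPairs u (move g σ) : ZMod 2) = 0) → β = 0

end Run7.h370.MR
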