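import Mathlib
import Pool.Agent.Run7.h370.MR.TwoDefs
import Pool.Agent.Run7.h142.TF.Props

/-!
# Weil numbers with slopes which are nondegenerate modulo a prime number: the statements
-/

set_option autoImplicit false

namespace Run7.h370.MR

open NumberField Module Polynomial Pool.Agent.Y1.CT Pool.Agent.Run7.h142.JT
  Pool.Agent.Run7.h142.TF

/-- `π` is a Weil number for `p ^ a` in the CM field `E`, which is an extension of 2-power degree of
a field `R` with Galois closure of odd degree. The deviations `2 ord_p (τ π) - a` are the multiples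
`κ * u τ` of a number `κ ≠ 0`, with integers `u τ`, and there is exactly one embedding `σ` of `R` in
the algebraic closure of `ℚ_p` such that `u τ` is odd for an odd number of the pairs of conjugate
embeddings `τ` of `E` over `σ`. -/
structure OneOddEmbedding (p a : ℕ) [Fact p.Prime] (R : Type) {E : Type} [Field R] [NumberField R]
    [Field E] [NumberField E] [IsCMField E] [Algebra R E] (π : E) : Prop where
  weil : π * IsCMField.complexConj E π = (p : E) ^ a
  closure : Odd (finrank ℚ (IntermediateField.normalClosure ℚ R ℂ))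
  degree : ∃ k : ℕ, finrank R E = 2 ^ k
  slopes : ∃ (κ : ℝ) (u : (E →+* PadicAlgCl p) → ℤ), κ ≠ 0 ∧
    (∀ τ, dev p a π τ = κ * u τ) ∧ ∃! σ : R →+* PadicAlgCl p, Odd (oddPairs u σ)

/-- The property holds for all Weil numbers `π k i`, `i : I k`, for `p ^ a` in CM fields `E k`
whose slopes are nondegenerate modulo prime numbers `r k`; `f (k, i)` is any monic polynomial whose
complex roots are conjugates of `π k i`. -/
def HoldsForModular (P : Prp) : Prop :=
  ∀ (p : ℕ) [Fact p.Prime] (a : ℕ) (κ : Type) [Fintype κ] (E : κ → Type) [∀ k, Field (E k)]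
    [∀ k, NumberField (E k)] [∀ k, IsCMField (E k)] (I : κ → Type) [∀ k, Fintype (I k)]
    (r : κ → ℕ) (π : ∀ k, I k → E k) (f : (Σ k, I k) → ℤ[X]), 0 < a → FieldsFlipped E →
      SlopesModPrime p a r π → (∀ x, IsPolyOf (π x.1 x.2) (f x)) →
        P (Σ k, I k) (Fam E I) (p ^ a) f

/-- The property holds for all Weil numbers `π k` for `p ^ a` in CM fields `E k` of 2-power degree
over fields `R k` with Galois closure of odd degree, whose slopes are nondegenerate
(`TwoAdicSlopes`). -/
def HoldsForTwoAdic (P : Prp) : Prop :=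
  ∀ (p : ℕ) [Fact p.Prime] (a : ℕ) (κ : Type) [Fintype κ] (R E : κ → Type) [∀ k, Field (R k)]
    [∀ k, NumberField (R k)] [∀ k, Field (E k)] [∀ k, NumberField (E k)] [∀ k, IsCMField (E k)]
    [∀ k, Algebra (R k) (E k)] (π : ∀ k, E k) (f : κ → ℤ[X]), 0 < a → FieldsFlipped E →
      (∀ k, TwoAdicSlopes p a (R k) (π k)) → (∀ k, IsPolyOf (π k) (f k)) → P κ E (p ^ a) f

/-- The property holds for all Weil numbers `π k` for `p ^ a` in CM fields `E k` of 2-power degree
over fields `R k` with Galois closure of odd degree, with exactly one embedding of `R k` of odd type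
(`OneOddEmbedding`). -/
def HoldsForOneOdd (P : Prp) : Prop :=
  ∀ (p : ℕ) [Fact p.Prime] (a : ℕ) (κ : Type) [Fintype κ] (R E : κ → Type) [∀ k, Field (R k)]
    [∀ k, NumberField (R k)] [∀ k, Field (E k)] [∀ k, NumberField (E k)] [∀ k, IsCMField (E k)]
    [∀ k, Algebra (R k) (E k)] (π : ∀ k, E k) (f : κ → ℤ[X]), 0 < a → FieldsFlipped E →
      (∀ k, OneOddEmbedding p a (R k) (π k)) → (∀ k, IsPolyOf (π k) (f k)) → P κ E (p ^ a) f

end Run7.h370.MR
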