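import Mathlib
import Pool.Agent.Run7.h370.MR.TwoDefs
import Pool.Agent.Run7.h142.TF.Angle
import Pool.Agent.H977R3.CM.Closure
import Pool.Agent.H977R3.CM.TowerCore
import Pool.Agent.H204R3.CM.Nondeg

/-!
# Weil numbers of 2-adic towers have slopes which are nondegenerate modulo 2
-/

set_option autoImplicit false
set_option linter.unusedSectionVars false

namespace Run7.h370.MR

open NumberField Module Pool.Agent.H204R3.CM Pool.Agent.H977R3.CM Pool.Agent.H925R2
  Pool.Agent.Run7.h142.TF

section

variable {R E : Type} [Field R] [NumberField R] [Field E] [NumberField E] [IsCMField E]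
  [Algebra R E]

theorem noOrder_two (hcl : Odd (finrank ℚ (IntermediateField.normalClosure ℚ R ℂ))) :
    NoOrder R 2 :=
  noOrder_of_closure R 2 Nat.prime_two (by
    rw [← even_iff_two_dvd, Nat.not_even_iff_odd]
    exact hcl)

/-- The subfield with Galois closure of odd degree is fixed by the complex conjugation. -/
theorem conj_sub (hcl : Odd (finrank ℚ (IntermediateField.normalClosure ℚ R ℂ))) (x : R) :
    IsCMField.complexConj E (algebraMap R E x) = algebraMap R E x := by
  obtain ⟨φ⟩ : Nonempty (E →+* ℂ) := inferInstance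
  apply φ.injective
  have h1 := noOrder_two hcl (starRingAut : ℂ ≃+* ℂ) (fun τ => by
    ext y
    rw [pow_two]
    exact star_star (τ y)) (φ.comp (algebraMap R E))
  have h2 := RingHom.congr_fun h1 x
  rw [IsCMField.complexEmbedding_complexConj]
  exact h2

/-- Every complex embedding of a subfield extends. -/
theorem exists_ext (τ : R →+* ℂ) : ∃ φ : E →+* ℂ, φ.comp (algebraMap R E) = τ := by
  let _ : Algebra R ℂ := τ.toAlgebra
  have _ : Algebra.IsAlgebraic R E := by
    have _ : IsScalarTower ℚ R E := inferInstance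
    exact Algebra.IsAlgebraic.tower_top (K := ℚ) R
  let φ : E →ₐ[R] ℂ := IsAlgClosed.lift
  refine ⟨φ, ?_⟩
  ext x
  exact φ.commutes x

/-- The permutations of the embeddings of `R` into `L` have no order `r`. -/
theorem noOrder_group {L : Type*} [Field L] [NumberField L] (j : L →+* ℂ)
    (h₀ : ∀ τ : R →+* ℂ, ∃ y : R →+* L, j.comp y = τ) (r : ℕ)
    (hno : NoOrder R r) (g : L ≃ₐ[ℚ] L) (hg : ∀ y : R →+* L, (g ^ r) • y = y)
    (y : R →+* L) : g • y = y := by
  obtain ⟨σ, hσ⟩ := exists_aut j (g : L ≃+* L)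
  have hpow : ∀ (s : ℕ) (x : L), (σ ^ s) (j x) = j ((g ^ s) x) := by
    intro s
    induction s with
    | zero =>
      intro x
      rw [pow_zero, pow_zero]
      rfl
    | succ s ih =>
      intro x
      rw [pow_succ, pow_succ, RingAut.mul_apply, AlgEquiv.mul_apply, hσ, ih]
      rfl
  have h1 := hno σ (by
    intro τ
    obtain ⟨z, rfl⟩ := h₀ τ
    ext x
    have h2 := RingHom.congr_fun (hg z) x
    change (σ ^ r) (j (z x)) = j (z x)
    rw [hpow]
    exact congrArg j h2) (j.comp y)
  ext x
  apply j.injective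
  have h2 := RingHom.congr_fun h1 x
  rw [emb_smul_apply]
  exact (hσ (y x)).symm.trans h2

end

section

variable {R E A : Type} [Field R] [Field E] [NumberField E] [IsCMField E] [Algebra R E]
  [Field A] [CharZero A]

theorem move_bij (g : A ≃+* A) : Function.Bijective (fun τ : E →+* A => move g τ) := by
  constructor
  · intro τ τ' h
    ext x
    exact g.injective (RingHom.congr_fun h x)
  · intro τ
    refine ⟨move g⁻¹ τ, ?_⟩
    ext x
    exact g.apply_symm_apply _

/-- The sum of `u` over half of the embeddings over `σ`. -/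
theorem half_sum (hfix : ∀ x : R, IsCMField.complexConj E (algebraMap R E x) = algebraMap R E x)
    (u : (E →+* A) → ℤ) (g : A ≃+* A)
    (hu : ∀ τ : E →+* A, u (move g (conj τ)) = - u (move g τ))
    (T : Finset (E →+* A)) (hT : ∀ τ, τ ∈ T ↔ conj τ ∉ T) (σ : R →+* A)
    [DecidableEq (R →+* A)] :
    ∑ τ ∈ T.filter (fun τ => τ.comp (algebraMap R E) = σ), (u (move g τ) : ZMod 2) =
      (oddPairs u (move g σ) : ZMod 2) := by
  classical
  have hpar : ∀ n : ℤ, (n : ZMod 2) = if Odd n then 1 else 0 := by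
    intro n
    split_ifs with h
    · exact (ZMod.intCast_eq_one_iff_odd).2 h
    · exact (ZMod.intCast_eq_zero_iff_even).2 (Int.not_odd_iff_even.1 h)
  have hres : ∀ τ : E →+* A, (conj τ).comp (algebraMap R E) = τ.comp (algebraMap R E) := by
    intro τ
    ext x
    change τ (IsCMField.complexConj E (algebraMap R E x)) = τ (algebraMap R E x)
    rw [hfix]
  let F : (E →+* A) → ℕ := fun τ =>
    if τ.comp (algebraMap R E) = σ ∧ Odd (u (move g τ)) then 1 else 0
  have hF : ∀ τ, F (conj τ) = F τ := by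
    intro τ
    simp only [F, hres, hu, odd_neg]
  have h1 := IsHalf.sum_symm (inv := conj (F := E) (A := A))
    (fun τ => cbar_cbar τ) (Φ := T) hT F hF
  have h2 : ∑ τ, F τ = {τ : E →+* A | τ.comp (algebraMap R E) = move g σ ∧ Odd (u τ)}.ncard := by
    have h3 : {τ : E →+* A | τ.comp (algebraMap R E) = move g σ ∧ Odd (u τ)} =
        (fun τ : E →+* A => move g τ) '' {τ : E →+* A | τ.comp (algebraMap R E) = σ ∧
          Odd (u (move g τ))} := by
      ext τ
      constructor
      · rintro ⟨h4, h5⟩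
        obtain ⟨τ', rfl⟩ := (move_bij g).2 τ
        refine ⟨τ', ⟨?_, h5⟩, rfl⟩
        ext x
        apply g.injective
        exact RingHom.congr_fun h4 x
      · rintro ⟨τ', ⟨h4, h5⟩, rfl⟩
        refine ⟨?_, h5⟩
        ext x
        exact congrArg g (RingHom.congr_fun h4 x)
    rw [h3, Set.ncard_image_of_injective _ (move_bij g).1]
    simp only [F]
    rw [Finset.sum_boole, Nat.cast_id, ← Set.ncard_coe_finset]
    congr 1
    ext τ
    simp
  have h3 : oddPairs u (move g σ) = ∑ τ ∈ T, F τ := by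
    unfold oddPairs
    rw [← h2, h1]
    omega
  rw [h3, Finset.sum_filter]
  push_cast
  refine Finset.sum_congr rfl fun τ _ => ?_
  simp only [F]
  by_cases h4 : τ.comp (algebraMap R E) = σ
  · rw [if_pos h4, hpar]
    simp only [h4, true_and]
    push_cast
    rfl
  · rw [if_neg h4]
    simp only [h4, false_and, if_false, Nat.cast_zero]

end

variable {p : ℕ} [Fact p.Prime] {a : ℕ}

theorem nondegenerate_of_twoAdic {R E : Type} [Field R] [NumberField R] [Field E] [NumberField E]
    [IsCMField E] [Algebra R E] {π : E} (hπ : TwoAdicSlopes p a R π) :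
    NondegenerateMod 2 p a (fun _ : Unit => π) := by
  classical
  have _ : Fact (Nat.Prime 2) := ⟨Nat.prime_two⟩
  obtain ⟨ν⟩ := Pool.Agent.R401.Iso.exists_iso p
  obtain ⟨k, hdeg⟩ := hπ.degree
  obtain ⟨κ, u, hκ, hu, hβ⟩ := hπ.slopes
  have hno := noOrder_two hπ.closure
  obtain ⟨L, _, _, j, hj⟩ := exists_galois (fun _ : Unit => E)
  have hjE : ∀ ψ : E →+* ℂ, ∃ φ : E →+* L, j.comp φ = ψ := hj ()
  have hjR : ∀ τ : R →+* ℂ, ∃ y : R →+* L, j.comp y = τ := by
    intro τ
    obtain ⟨ψ, rfl⟩ := exists_ext (E := E) τ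
    obtain ⟨φ, rfl⟩ := hjE ψ
    exact ⟨φ.comp (algebraMap R E), rfl⟩
  let e : L →+* PadicAlgCl p := (ν.symm : ℂ →+* PadicAlgCl p).comp j
  have he : ∀ x, ν (e x) = j x := fun x => ν.apply_symm_apply _
  have hbij : Function.Bijective (fun φ : E →+* L => e.comp φ) := by
    constructor
    · intro φ ψ hh
      exact RingHom.ext fun x => e.injective (RingHom.congr_fun hh x)
    · intro τ
      obtain ⟨φ, hφ⟩ := hjE ((ν : PadicAlgCl p →+* ℂ).comp τ)
      refine ⟨φ, ?_⟩
      ext x
      apply ν.injective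
      change ν (e (φ x)) = ν (τ x)
      rw [he]
      exact RingHom.congr_fun hφ x
  -- the Sylow subgroup
  obtain ⟨S⟩ : Nonempty (Sylow 2 (L ≃ₐ[ℚ] L)) := inferInstance
  have htriv : ∀ s : L ≃ₐ[ℚ] L, s ∈ S → ∀ y : R →+* L, s • y = y := fun s hs y =>
    trivial_of_noOrder 2 (noOrder_group j hjR 2 hno) (S : Subgroup (L ≃ₐ[ℚ] L)) S.isPGroup' s hs y
  let H : Subgroup (PadicAlgCl p ≃+* PadicAlgCl p) :=
    { carrier := {h | ∃ s ∈ (S : Subgroup (L ≃ₐ[ℚ] L)), ∀ x, h (e x) = e (s x)}
      mul_mem' := by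
        rintro h h' ⟨s, hs, h1⟩ ⟨s', hs', h2⟩
        refine ⟨s * s', mul_mem hs hs', fun x => ?_⟩
        change h (h' (e x)) = e (s (s' x))
        rw [h2, h1]
      one_mem' := ⟨1, one_mem _, fun x => rfl⟩
      inv_mem' := by
        rintro h ⟨s, hs, h1⟩
        refine ⟨s⁻¹, inv_mem hs, fun x => ?_⟩
        have h2 := h1 (s⁻¹ x)
        have h3 : s (s⁻¹ x) = x := s.apply_symm_apply x
        rw [h3] at h2
        rw [← h2]
        exact h.symm_apply_apply _ }
  refine ⟨κ, fun _ => u, H, hκ, fun _ => hu, ?_, ?_⟩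
  · rintro h ⟨s, hs, h1⟩
    obtain ⟨n, hn⟩ := S.isPGroup' ⟨s, hs⟩
    have hn' : s ^ 2 ^ n = 1 := congrArg Subtype.val hn
    refine ⟨n, fun τ => ?_⟩
    obtain ⟨φ, rfl⟩ := hbij.2 τ
    have hpow : ∀ (m : ℕ) x, (h ^ m) (e x) = e ((s ^ m) x) := by
      intro m
      induction m with
      | zero => intro x; rfl
      | succ m ih =>
        intro x
        rw [pow_succ, pow_succ]
        change (h ^ m) (h (e x)) = e ((s ^ m) (s x))
        rw [h1, ih]
    ext x
    change (h ^ 2 ^ n) (e (φ x)) = e (φ x)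
    rw [hpow, hn']
    rfl
  · intro b hb1 hb2 hb3
    have hbS : ∀ s : L ≃ₐ[ℚ] L, s ∈ S → ∀ φ : E →+* L, b () (e.comp (s • φ)) = b () (e.comp φ) := by
      intro s hs φ
      obtain ⟨σ, hσ⟩ := exists_aut j (s : L ≃+* L)
      let h : PadicAlgCl p ≃+* PadicAlgCl p := ν.trans (σ.trans ν.symm)
      have hh : ∀ x, h (e x) = e (s x) := by
        intro x
        change ν.symm (σ (ν (e x))) = ν.symm (j (s x))
        rw [he, hσ]
        rfl
      have h1 := hb2 h ⟨s, hs, hh⟩ () (e.comp φ)
      have h2 : move h (e.comp φ) = e.comp (s • φ) := by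
        ext x
        exact hh (φ x)
      rw [h2] at h1
      exact h1
    have hcard : Fintype.card (E →+* L) = Fintype.card (R →+* L) * 2 ^ k := by
      rw [card_emb j hjE, card_emb j hjR, ← hdeg]
      have _ : IsScalarTower ℚ R E := inferInstance
      exact (finrank_mul_finrank ℚ R E).symm
    have hconst : ∀ τ τ' : E →+* PadicAlgCl p,
        τ.comp (algebraMap R E) = τ'.comp (algebraMap R E) → b () τ = b () τ' := by
      intro τ τ' hττ
      obtain ⟨φ, rfl⟩ := hbij.2 τ
      obtain ⟨φ', rfl⟩ := hbij.2 τ'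
      have h1 : φ.comp (algebraMap R E) = φ'.comp (algebraMap R E) := by
        ext x
        exact congrArg _ (e.injective (RingHom.congr_fun hττ x))
      obtain ⟨s, hs, rfl⟩ := fibre_transitive (G := L ≃ₐ[ℚ] L) (R := E →+* L) (R₀ := R →+* L)
        (fun φ => φ.comp (algebraMap R E)) (fun g x => rfl) 2 k hcard S htriv φ φ' h1
      exact (hbS s hs φ).symm
    have hext : ∀ σ : R →+* PadicAlgCl p, ∃ τ : E →+* PadicAlgCl p,
        τ.comp (algebraMap R E) = σ := by
      intro σ
      obtain ⟨φ, hφ⟩ := exists_ext (E := E) ((ν : PadicAlgCl p →+* ℂ).comp σ)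
      refine ⟨(ν.symm : ℂ →+* PadicAlgCl p).comp φ, ?_⟩
      ext x
      have h1 := RingHom.congr_fun hφ x
      change ν.symm (φ (algebraMap R E x)) = σ x
      apply ν.injective
      rw [ν.apply_symm_apply]
      exact h1
    choose w hw using hext
    have hbw : ∀ τ, b () τ = b () (w (τ.comp (algebraMap R E))) := fun τ =>
      hconst _ _ (hw _).symm
    have hu' : ∀ (g : PadicAlgCl p ≃+* PadicAlgCl p) (τ : E →+* PadicAlgCl p),
        u (move g (conj τ)) = - u (move g τ) := by
      intro g τ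
      have h1 : dev p a π (move g (conj τ)) = - dev p a π (move g τ) := by
        have h2 : move g (conj τ) = conj (move g τ) := rfl
        rw [h2, dev_eq ν, dev_eq ν]
        have h3 : (ν : PadicAlgCl p →+* ℂ).comp (conj (move g τ)) =
            ComplexEmbedding.conjugate ((ν : PadicAlgCl p →+* ℂ).comp (move g τ)) := by
          ext x
          rw [ComplexEmbedding.conjugate_coe_eq, ← IsCMField.complexEmbedding_complexConj]
          rfl
        rw [h3, ww_conj ν hπ.weil]
      rw [hu, hu, ← mul_neg] at h1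
      have h2 := mul_left_cancel₀ hκ h1
      exact_mod_cast h2
    have h0 := hβ (fun σ => b () (w σ)) (fun g => by
      obtain ⟨T, hT⟩ := exists_isHalf (inv := conj (F := E) (A := PadicAlgCl p))
        (fun τ => cbar_cbar τ) (fun τ => cbar_ne τ)
      have h1 := hb3 g T hT
      rw [Fintype.sum_unique] at h1
      rw [← h1]
      rw [← Finset.sum_fiberwise_of_maps_to (s := T)
        (t := (Finset.univ : Finset (R →+* PadicAlgCl p))) (g := fun τ => τ.comp (algebraMap R E))
        (fun _ _ => Finset.mem_univ _)]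
      refine Finset.sum_congr rfl fun σ _ => ?_
      rw [← half_sum (fun x => conj_sub hπ.closure x) u g (hu' g) T hT σ, Finset.mul_sum]
      refine Finset.sum_congr rfl fun τ hτ => ?_
      rw [hbw τ, (Finset.mem_filter.1 hτ).2])
    funext i τ
    obtain ⟨⟩ := i
    rw [hbw τ]
    exact congrFun h0 _

end Run7.h370.MR
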