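import Mathlib
import Pool.Agent.Run7.h370.MR.Angle
import Pool.Agent.Run7.h370.MR.Two
import Pool.Agent.Run7.h370.MR.Props
import Pool.Agent.Run7.h142.TF.Main

/-!
# Weil numbers with slopes which are nondegenerate modulo a prime number: main lemmas
-/

set_option autoImplicit false
set_option linter.unusedSectionVars false

namespace Run7.h370.MR

open NumberField Module Polynomial Pool.Agent.H204R3.CM Pool.Agent.H977R3.CM
  Pool.Agent.TH170 Pool.Agent.Y1.CT Pool.Agent.Y137.MV Pool.Agent.Run7.h142.JT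
  Pool.Agent.Run7.h142.TF IntermediateField

section

variable {p : ℕ} [Fact p.Prime] {a : ℕ} {ι : Type} [Fintype ι] {K : ι → Type}
  [∀ i, Field (K i)] [∀ i, NumberField (K i)] [∀ i, IsCMField (K i)] {π : ∀ i, K i}

/-- Weil numbers of maximal angle rank generate their fields. -/
theorem gen_of_angle (hM : MaximalAngleRank (p ^ a) π) (i : ι)
    (hw : π i * IsCMField.complexConj (K i) (π i) = (p : K i) ^ a) : ℚ⟮π i⟯ = ⊤ := by
  classical
  have hp0 : (p : K i) ≠ 0 := Nat.cast_ne_zero.2 (Fact.out : p.Prime).ne_zero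
  have hπ0 : π i ≠ 0 := by
    intro h0
    rw [h0, zero_mul] at hw
    exact pow_ne_zero a hp0 hw.symm
  rw [Field.primitive_element_iff_algHom_eq_of_eval' ℚ ℂ (fun x => IsAlgClosed.splits _)]
  intro φ ψ h
  change φ (π i) = ψ (π i) at h
  by_contra hne
  have hne' : (φ : K i →+* ℂ) ≠ (ψ : K i →+* ℂ) := by
    intro h1
    apply hne
    ext x
    exact RingHom.congr_fun h1 x
  let X : Type := Σ i, (K i →+* ℂ)
  let x : X := ⟨i, (φ : K i →+* ℂ)⟩
  let y : X := ⟨i, (ψ : K i →+* ℂ)⟩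
  have hxy : x ≠ y := by
    intro h1
    exact hne' (eq_of_heq (Sigma.mk.inj h1).2)
  have h1 := hM 0 (fun z : X => (if z = x then 1 else 0) - (if z = y then 1 else 0)) (by
    rw [zpow_zero]
    have h2 : ∀ z : X, (z.2 (π z.1)) ^ ((if z = x then (1 : ℤ) else 0) - (if z = y then 1 else 0)) =
        (if z = x then φ (π i) else 1) * (if z = y then (ψ (π i))⁻¹ else 1) := by
      intro z
      by_cases h3 : z = x
      · rw [if_pos h3, if_pos h3, if_neg (h3 ▸ hxy), if_neg (h3 ▸ hxy), sub_zero, zpow_one, mul_one,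
          h3]
        rfl
      · rw [if_neg h3, if_neg h3]
        by_cases h4 : z = y
        · rw [if_pos h4, if_pos h4, h4, zero_sub, zpow_neg, zpow_one, one_mul]
          rfl
        · rw [if_neg h4, if_neg h4, sub_zero, zpow_zero, mul_one]
    rw [Finset.prod_congr rfl fun z _ => h2 z, Finset.prod_mul_distrib, Finset.prod_ite_eq',
      Finset.prod_ite_eq', if_pos (Finset.mem_univ _), if_pos (Finset.mem_univ _), h]
    exact mul_inv_cancel₀ ((_root_.map_ne_zero ψ).2 hπ0)) i (φ : K i →+* ℂ)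
  have h2 : (⟨i, ComplexEmbedding.conjugate (φ : K i →+* ℂ)⟩ : X) ≠ x := by
    intro h3
    exact conj_ne (φ : K i →+* ℂ) (eq_of_heq (Sigma.mk.inj h3).2)
  have h3 : (⟨i, (φ : K i →+* ℂ)⟩ : X) = x := rfl
  simp only [if_neg h2] at h1
  rw [if_pos h3, if_neg (h3 ▸ hxy)] at h1
  split_ifs at h1 <;> omega

theorem noRel_of_angle (hw : ∀ i, π i * IsCMField.complexConj (K i) (π i) = (p : K i) ^ a)
    (hM : MaximalAngleRank (p ^ a) π) {f : ι → ℤ[X]} (hf : ∀ i, IsPolyOf (π i) (f i)) :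
    NoRel f (p ^ a) (Pool.Agent.Y1.CT.Unrelated K) :=
  ⟨fun x => (hf x).1, unrelated_one _, fun s hs ρ hρ =>
    exactPair_of_angle (K := K) (π := π) hM hw f hf s hs ρ hρ⟩

end

section

variable {p : ℕ} [Fact p.Prime] {a : ℕ} {κ : Type} [Fintype κ] {E : κ → Type}
  [∀ k, Field (E k)] [∀ k, NumberField (E k)] [∀ k, IsCMField (E k)]

/-- Two-adic towers have maximal angle rank. -/
theorem angle_of_twoAdic {R : κ → Type} [∀ k, Field (R k)] [∀ k, NumberField (R k)]
    [∀ k, Algebra (R k) (E k)] {π : ∀ k, E k} (hE : FieldsFlipped E)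
    (hπ : ∀ k, TwoAdicSlopes p a (R k) (π k)) : MaximalAngleRank (p ^ a) π := by
  have h1 : SlopesModPrime p a (fun _ => 2) (fun k (_ : Unit) => π k) :=
    ⟨fun k _ => (hπ k).weil, fun _ => Nat.prime_two, fun k => nondegenerate_of_twoAdic (hπ k)⟩
  let e : (Σ _ : κ, Unit) ≃ κ :=
    { toFun := fun x => x.1
      invFun := fun i => ⟨i, ()⟩
      left_inv := fun x => rfl
      right_inv := fun x => rfl }
  exact angle_reindex e (angle_of_mod hE h1)

/-- The automorphisms act transitively on the embeddings. -/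
theorem exists_move {R : Type} [Field R] [NumberField R] (σ σ' : R →+* PadicAlgCl p) :
    ∃ g : PadicAlgCl p ≃+* PadicAlgCl p, move g σ = σ' := by
  obtain ⟨ν⟩ := Pool.Agent.R401.Iso.exists_iso p
  obtain ⟨τ, hτ⟩ := exists_comp ((ν : PadicAlgCl p →+* ℂ).comp σ)
    ((ν : PadicAlgCl p →+* ℂ).comp σ')
  refine ⟨ν.trans (τ.trans ν.symm), ?_⟩
  ext x
  apply ν.injective
  have h1 := RingHom.congr_fun hτ x
  change ν (ν.symm (τ (ν (σ x)))) = ν (σ' x)
  rw [ν.apply_symm_apply]
  exact h1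

theorem twoAdic_of_oneOdd {R E : Type} [Field R] [NumberField R] [Field E] [NumberField E]
    [IsCMField E] [Algebra R E] {π : E} (h : OneOddEmbedding p a R π) :
    TwoAdicSlopes p a R π := by
  classical
  obtain ⟨κ, u, hκ, hu, σ₀, hσ₀, huniq⟩ := h.slopes
  refine ⟨h.weil, h.closure, h.degree, κ, u, hκ, hu, fun β hβ => ?_⟩
  funext σ
  obtain ⟨g, hg⟩ := exists_move σ σ₀
  have h1 := hβ g
  rw [Finset.sum_eq_single σ] at h1
  · rw [hg, (ZMod.natCast_eq_one_iff_odd).2 hσ₀, mul_one] at h1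
    exact h1
  · intro σ' _ hne
    have h2 : ¬ Odd (oddPairs (E := E) u (move g σ')) := by
      intro h3
      have h4 := huniq _ h3
      rw [← hg] at h4
      apply hne
      ext x
      exact g.injective (RingHom.congr_fun h4 x)
    rw [(ZMod.natCast_eq_zero_iff_even).2 (Nat.not_odd_iff_even.1 h2), mul_zero]
  · intro h2
    exact absurd (Finset.mem_univ _) h2

end

/-- A property that follows from the absence of relations (and the absolute values). -/
theorem holdsForModular {P : Prp} (hP : ∀ (I : Type) (K : I → Type) [∀ i, Field (K i)] (q : ℕ)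
    (f : I → ℤ[X]), 1 < q → (∀ i (z : ℂ), aeval z (f i) = 0 → ‖z‖ ^ 2 = (q : ℝ)) →
      NoRel f q (Pool.Agent.Y1.CT.Unrelated K) → P I K q f) : HoldsForModular P := by
  intro p _ a κ _ E _ _ _ I _ r π f ha hE hπ hf
  exact hP _ _ _ _ (Nat.one_lt_pow ha.ne' (Fact.out : p.Prime).one_lt)
    (fun x z hz => norm_root (hπ.weil x.1 x.2) (hf x) hz)
    (noRel_of_angle (K := Fam E I) (π := fun x : Σ k, I k => π x.1 x.2)
      (fun x => hπ.weil x.1 x.2) (angle_of_mod hE hπ) hf)

theorem holdsForTwoAdic {P : Prp} (hP : ∀ (I : Type) (K : I → Type) [∀ i, Field (K i)] (q : ℕ)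
    (f : I → ℤ[X]), 1 < q → (∀ i (z : ℂ), aeval z (f i) = 0 → ‖z‖ ^ 2 = (q : ℝ)) →
      NoRel f q (Pool.Agent.Y1.CT.Unrelated K) → P I K q f) : HoldsForTwoAdic P := by
  intro p _ a κ _ R E _ _ _ _ _ _ π f ha hE hπ hf
  exact hP _ _ _ _ (Nat.one_lt_pow ha.ne' (Fact.out : p.Prime).one_lt)
    (fun x z hz => norm_root (hπ x).weil (hf x) hz)
    (noRel_of_angle (fun x => (hπ x).weil) (angle_of_twoAdic hE hπ) hf)

theorem holdsForOneOdd {P : Prp} (hP : HoldsForTwoAdic P) : HoldsForOneOdd P := by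
  intro p _ a κ _ R E _ _ _ _ _ _ π f ha hE hπ hf
  exact hP p a κ R E π f ha hE (fun k => twoAdic_of_oneOdd (hπ k)) hf

/-- Numbers which are independent of the fields instead of unrelated ones. -/
theorem noRel_ind {I : Type} {K : I → Type} [∀ i, Field (K i)] {q : ℕ} {f : I → ℤ[X]}
    (h : NoRel f q (Pool.Agent.Y1.CT.Unrelated K)) : NoRel f q (Independent K) :=
  ⟨h.monic, ⟨one_ne_zero, fun _ _ => ⟨starRingAut, 1, one_pos, by
      rw [one_pow]
      exact map_one _, fun _ => rfl⟩⟩,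
    fun s hs ρ hρ => h.pair s hs ρ (unrelated_of_independent hρ)⟩

end Run7.h370.MR
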