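import Mathlib
import Pool.Agent.TH170.FT.CommonDefs
import Pool.Agent.TH170.FT.TateDefs
import Pool.Agent.TH170.FT.MTDefs
import Pool.Agent.TH170.FT.Hodge

/-!
# Conjectures for abelian varieties with one Frobenius element with given Weil numbers: definitions
-/

set_option autoImplicit false

namespace Run7.h370.MR

open NumberField Module Pool.Agent.H204R3.GP Pool.Agent.TH170.FT

/-- The Tate conjecture for all powers of the abelian varieties with a Frobenius element whose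
characteristic polynomial is the product of the minimal polynomials of the Weil numbers `π i` for
`p ^ a`, and all prime numbers `ℓ`. -/
def TateFor (p a : ℕ) {I : Type} [Fintype I] (K : I → Type) [∀ i, Field (K i)]
    [∀ i, NumberField (K i)] (π : ∀ i, K i) : Prop :=
  ∀ (ℓ : ℕ) [Fact ℓ.Prime] (V Γ : Type) [AddCommGroup V] [Module ℚ_[ℓ] V]
    [FiniteDimensional ℚ_[ℓ] V] [Group Γ] (ρ : Representation ℚ_[ℓ] Γ V) (χ : Γ →* ℚ_[ℓ])
    (ω : V →ₗ[ℚ_[ℓ]] V →ₗ[ℚ_[ℓ]] ℚ_[ℓ])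
    (D : ∀ n : ℕ, Set ((Fin n → V) [⋀^Fin 2]→ₗ[ℚ_[ℓ]] ℚ_[ℓ]))
    (C : ∀ n m : ℕ, Set ((Fin n → V) [⋀^Fin m × Fin 2]→ₗ[ℚ_[ℓ]] ℚ_[ℓ])),
    IsTateModule ρ χ ω → IsCycleClasses ρ χ D C → HasFrobenius ρ χ p a π →
      ∀ (n m : ℕ) (f : (Fin n → V) [⋀^Fin m × Fin 2]→ₗ[ℚ_[ℓ]] ℚ_[ℓ]),
        IsTateClass ρ χ m f → f ∈ Submodule.span ℚ_[ℓ] (C n m)

/-- The Mumford-Tate conjecture, in the strong form that all Tate classes are combinations of products
of Hodge classes of degree two, for all abelian varieties with a Frobenius element whose characteristic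
polynomial is the product of the minimal polynomials of the Weil numbers `π i` for `p ^ a`, and all
prime numbers `ℓ`. -/
def MumfordTateFor (p a : ℕ) {I : Type} [Fintype I] (K : I → Type) [∀ i, Field (K i)]
    [∀ i, NumberField (K i)] (π : ∀ i, K i) : Prop :=
  ∀ (ℓ : ℕ) [Fact ℓ.Prime] (W T V Γ : Type) [AddCommGroup W] [Module ℚ W] [AddCommGroup T]
    [Module ℂ T] [AddCommGroup V] [Module ℚ_[ℓ] V] [FiniteDimensional ℚ_[ℓ] V] [Group Γ]
    (per : W →+ T) (ω₀ : W →ₗ[ℚ] W →ₗ[ℚ] ℚ) (comp : W →+ V) (ρ : Representation ℚ_[ℓ] Γ V)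
    (χ : Γ →* ℚ_[ℓ]) (ω : V →ₗ[ℚ_[ℓ]] V →ₗ[ℚ_[ℓ]] ℚ_[ℓ]),
    IsRealization per ω₀ comp ρ χ ω → HasFrobenius ρ χ p a π → MumfordTateStrong per comp ρ χ

/-- The common `ℚ`-form for the abelian varieties which have, for all primes `ℓ ≥ ℓ₀`, a Frobenius
element whose characteristic polynomial is the product of the minimal polynomials of the Weil
numbers `π i` for `p ^ a`. -/
def CommonFormFor (p a : ℕ) {I : Type} [Fintype I] (K : I → Type) [∀ i, Field (K i)]
    [∀ i, NumberField (K i)] (π : ∀ i, K i) : Prop :=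
  ∀ (W T Γ : Type) [AddCommGroup W] [Module ℚ W] [FiniteDimensional ℚ W] [AddCommGroup T]
    [Module ℂ T] [Group Γ] (per : W →+ T) (ω₀ : W →ₗ[ℚ] W →ₗ[ℚ] ℚ)
    (D : ∀ (ℓ : ℕ) [Fact ℓ.Prime], GaloisData per ω₀ Γ ℓ) (ℓ₀ : ℕ),
    (∀ (ℓ : ℕ) [Fact ℓ.Prime], ℓ₀ ≤ ℓ → HasFrobenius (D ℓ).ρ (D ℓ).χ p a π) →
      HasCommonForm D ℓ₀

/-- The Hodge classes are generated in degree two on all powers of the abelian varieties with a
Frobenius element whose characteristic polynomial is the product of the minimal polynomials of the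
Weil numbers `π i` for `p ^ a`. -/
def HodgeFor (p a : ℕ) {I : Type} [Fintype I] (K : I → Type) [∀ i, Field (K i)]
    [∀ i, NumberField (K i)] (π : ∀ i, K i) : Prop :=
  ∀ (W T Γ : Type) [AddCommGroup W] [Module ℚ W] [FiniteDimensional ℚ W] [AddCommGroup T]
    [Module ℂ T] [Group Γ] (per : W →+ T) (ω₀ : W →ₗ[ℚ] W →ₗ[ℚ] ℚ) (ℓ : ℕ) [Fact ℓ.Prime]
    (D : GaloisData per ω₀ Γ ℓ), HasFrobenius D.ρ D.χ p a π → HodgeInDegreeTwo per

end Run7.h370.MR
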