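import Mathlib
import Pool.Agent.Run7.h370.MR.Props

/-!
# Weil numbers with slopes which are nondegenerate modulo a prime number: properties of Weil numbers
-/

set_option autoImplicit false

namespace Run7.h370.MR

open NumberField Module Pool.Agent.Run7.h142.JT Pool.Agent.Run7.h142.TF

/-- A property `P p a I K π` of Weil numbers `π i` for `p ^ a` in CM fields `K i`. -/
abbrev WeilPrp : Type 1 := ∀ (p : ℕ) [Fact p.Prime] (_ : ℕ) (I : Type) [Fintype I] (K : I → Type)
  [∀ i, Field (K i)] [∀ i, NumberField (K i)] [∀ i, IsCMField (K i)], (∀ i, K i) → Prop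

/-- The property holds for all Weil numbers `π k i`, `i : I k`, for `p ^ a` in CM fields `E k`
whose slopes are nondegenerate modulo prime numbers `r k`. -/
def WeilModular (P : WeilPrp) : Prop :=
  ∀ (p : ℕ) [Fact p.Prime] (a : ℕ) (κ : Type) [Fintype κ] (E : κ → Type) [∀ k, Field (E k)]
    [∀ k, NumberField (E k)] [∀ k, IsCMField (E k)] (I : κ → Type) [∀ k, Fintype (I k)]
    (r : κ → ℕ) (π : ∀ k, I k → E k), 0 < a → FieldsFlipped E → SlopesModPrime p a r π →
      P p a (Σ k, I k) (Fam E I) fun x => π x.1 x.2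

/-- The property holds for all Weil numbers `π k` for `p ^ a` in CM fields `E k` of 2-power degree
over fields `R k` with Galois closure of odd degree, whose slopes are nondegenerate
(`TwoAdicSlopes`). -/
def WeilTwoAdic (P : WeilPrp) : Prop :=
  ∀ (p : ℕ) [Fact p.Prime] (a : ℕ) (κ : Type) [Fintype κ] (R E : κ → Type) [∀ k, Field (R k)]
    [∀ k, NumberField (R k)] [∀ k, Field (E k)] [∀ k, NumberField (E k)] [∀ k, IsCMField (E k)]
    [∀ k, Algebra (R k) (E k)] (π : ∀ k, E k), 0 < a → FieldsFlipped E →
      (∀ k, TwoAdicSlopes p a (R k) (π k)) → P p a κ E π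

/-- The property holds for all Weil numbers `π k` for `p ^ a` in CM fields `E k` of 2-power degree
over fields `R k` with Galois closure of odd degree, with exactly one embedding of `R k` of odd type
(`OneOddEmbedding`). -/
def WeilOneOdd (P : WeilPrp) : Prop :=
  ∀ (p : ℕ) [Fact p.Prime] (a : ℕ) (κ : Type) [Fintype κ] (R E : κ → Type) [∀ k, Field (R k)]
    [∀ k, NumberField (R k)] [∀ k, Field (E k)] [∀ k, NumberField (E k)] [∀ k, IsCMField (E k)]
    [∀ k, Algebra (R k) (E k)] (π : ∀ k, E k), 0 < a → FieldsFlipped E →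
      (∀ k, OneOddEmbedding p a (R k) (π k)) → P p a κ E π

end Run7.h370.MR
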