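import Mathlib
import Pool.Agent.Run7.h370.MR.Main
import Pool.Agent.Run7.h370.MR.PropsW

/-!
# Weil numbers with slopes which are nondegenerate modulo a prime number: main lemmas for properties
of Weil numbers
-/

set_option autoImplicit false

namespace Run7.h370.MR

open NumberField Module Pool.Agent.Y137.MV Pool.Agent.Run7.h142.JT Pool.Agent.Run7.h142.TF
  IntermediateField

/-- The property follows from the maximality of the angle rank. -/
def FollowsFromAngle (P : WeilPrp) : Prop :=
  ∀ (p : ℕ) [Fact p.Prime] (a : ℕ) (I : Type) [Fintype I] (K : I → Type)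
    [∀ i, Field (K i)] [∀ i, NumberField (K i)] [∀ i, IsCMField (K i)] (π : ∀ i, K i), 0 < a →
    (∀ i, ℚ⟮π i⟯ = ⊤) → (∀ i, π i * IsCMField.complexConj (K i) (π i) = (p : K i) ^ a) →
      MaximalAngleRank (p ^ a) π → P p a I K π

theorem weilModular {P : WeilPrp} (hP : FollowsFromAngle P) : WeilModular P := by
  intro p _ a κ _ E _ _ _ I _ r π ha hE hπ
  have h1 := angle_of_mod hE hπ
  exact hP p a (Σ k, I k) (Fam E I) (fun x => π x.1 x.2) ha
    (fun x => gen_of_angle (K := Fam E I) (π := fun x : Σ k, I k => π x.1 x.2) h1 x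
      (hπ.weil x.1 x.2)) (fun x => hπ.weil x.1 x.2) h1

theorem weilTwoAdic {P : WeilPrp} (hP : FollowsFromAngle P) : WeilTwoAdic P := by
  intro p _ a κ _ R E _ _ _ _ _ _ π ha hE hπ
  have h1 := angle_of_twoAdic hE hπ
  exact hP p a κ E π ha (fun x => gen_of_angle h1 x (hπ x).weil) (fun x => (hπ x).weil) h1

theorem weilOneOdd {P : WeilPrp} (hP : FollowsFromAngle P) : WeilOneOdd P := by
  intro p _ a κ _ R E _ _ _ _ _ _ π ha hE hπ
  exact weilTwoAdic hP p a κ R E π ha hE fun k => twoAdic_of_oneOdd (hπ k)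

end Run7.h370.MR
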