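import Mathlib
import Pool.Agent.Run7.h370.MR.ConcDefs
import Pool.Agent.Run7.h370.MR.MainW
import Pool.Agent.TH170.FT.MT
import Pool.Agent.TH170.FT.Tate
import Pool.Agent.TH170.FT.Hodge
import Pool.Agent.Y137.MV.Criteria

/-!
# Conjectures for abelian varieties with one Frobenius element with given Weil numbers: the proofs
-/

set_option autoImplicit false

namespace Run7.h370.MR

open NumberField Module Pool.Agent.H204R3.GP Pool.Agent.TH170.FT Pool.Agent.TH170

theorem tateFor : FollowsFromAngle (fun p _ a I _ K _ _ _ π => TateFor p a K π) := by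
  intro p _ a I _ K _ _ _ π ha hgen hw hang ℓ _ V Γ _ _ _ _ ρ χ ω D C hR hC hF n m f hf
  obtain ⟨L, hL1, hL2, j, h⟩ := Pool.Agent.H204R3.CM.exists_galois K
  have h1 := generated ha hgen hw j h (Pool.Agent.Y137.MV.neat_of_angle j hang) hR hF n m f hf
  refine Submodule.span_le.2 ?_ h1
  rintro g ⟨B, hB, hg⟩
  exact wedge_mem (fun B g => hC.intersection n m B g) (fun l => hC.faltings n (B l) (hB l)) hg

theorem mumfordTateFor : FollowsFromAngle (fun p _ a I _ K _ _ _ π => MumfordTateFor p a K π) := by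
  intro p _ a I _ K _ _ _ π ha hgen hw hang ℓ _ W T V Γ _ _ _ _ _ _ _ _ per ω₀ comp ρ χ ω hR hF
  obtain ⟨L, hL1, hL2, j, h⟩ := Pool.Agent.H204R3.CM.exists_galois K
  exact mumfordTate ha hgen hw j h (Pool.Agent.Y137.MV.neat_of_angle j hang) hR hF

theorem commonFormFor : FollowsFromAngle (fun p _ a I _ K _ _ _ π => CommonFormFor p a K π) := by
  intro p _ a I _ K _ _ _ π ha hgen hw hang W T Γ _ _ _ _ _ _ per ω₀ D ℓ₀ hF
  obtain ⟨L, hL1, hL2, j, h⟩ := Pool.Agent.H204R3.CM.exists_galois K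
  exact hasCommonForm_of D ℓ₀ fun ℓ _ hℓ =>
    mumfordTate ha hgen hw j h (Pool.Agent.Y137.MV.neat_of_angle j hang) (D ℓ).realization (hF ℓ hℓ)

theorem hodgeFor : FollowsFromAngle (fun p _ a I _ K _ _ _ π => HodgeFor p a K π) := by
  intro p _ a I _ K _ _ _ π ha hgen hw hang W T Γ _ _ _ _ _ _ per ω₀ ℓ _ D hF
  obtain ⟨L, hL1, hL2, j, h⟩ := Pool.Agent.H204R3.CM.exists_galois K
  exact hodge_of_mumfordTate D
    (mumfordTate ha hgen hw j h (Pool.Agent.Y137.MV.neat_of_angle j hang) D.realization hF)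

end Run7.h370.MR
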